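import Mathlib
import Pool.Agent.N176.OW.M4

set_option autoImplicit false

/-!
# Optimal windows: one window of dyadic blocks
-/

namespace Pool.Agent.N441.OW

open Finset Filter Topology MeasureTheory
open Pool.Agent.N176.GP (NB MB)
open Pool.Agent.H305R2 (roughPart)
open Pool.Agent.N176.OW

/-- the primes up to `2 ^ J` -/
def cut (S : Set ℕ) (J : ℕ) : Set ℕ := {p | p ∈ S ∧ p ≤ 2 ^ J}

lemma TS_cut_lt {S : Set ℕ} {J i : ℕ} (h : i < J) : TS (cut S J) i = TS S i := by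
  classical
  have h1 : 2 ^ (i + 1) ≤ 2 ^ J := Nat.pow_le_pow_right (by norm_num) h
  unfold TS cut
  ext p
  simp only [mem_filter, mem_Ioc, Set.mem_ofPred_eq]
  constructor
  · rintro ⟨h2, h3, h4, _⟩
    exact ⟨h2, h3, h4⟩
  · rintro ⟨h2, h3, h4⟩
    exact ⟨h2, h3, h4, by omega⟩

lemma TS_cut_ge {S : Set ℕ} {J i : ℕ} (h : J ≤ i) : TS (cut S J) i = ∅ := by
  classical
  have h1 : 2 ^ J ≤ 2 ^ i := Nat.pow_le_pow_right (by norm_num) h
  unfold TS cut
  ext p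
  simp only [mem_filter, mem_Ioc, Set.mem_ofPred_eq, Finset.notMem_empty, iff_false]
  rintro ⟨h2, _, _, h3⟩
  omega

lemma VS_cut (S : Set ℕ) (J n : ℕ) : VS (cut S J) n = VS S (min n (2 ^ J)) := by
  classical
  unfold VS cut
  refine Finset.sum_congr ?_ fun _ _ => rfl
  ext p
  simp only [mem_filter, mem_range, Set.mem_ofPred_eq]
  constructor
  · rintro ⟨h2, h3, h4, h5⟩
    exact ⟨by omega, h3, h4⟩
  · rintro ⟨h2, h3, h4⟩
    exact ⟨by omega, h3, h4, by omega⟩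

lemma MB_cut (b : ℕ) (S : Set ℕ) (β : ℝ) (J n : ℕ) :
    MB b (cut S J) β n = MB b S β (min n (2 ^ J)) := by
  classical
  unfold MB cut
  congr 1
  ext p
  simp only [mem_filter, mem_range, Set.mem_ofPred_eq]
  constructor
  · rintro ⟨h2, h3, ⟨h4, h5⟩, h6⟩
    exact ⟨by omega, h3, h4, h6⟩
  · rintro ⟨h2, h3, h4, h6⟩
    exact ⟨by omega, h3, ⟨h4, by omega⟩, h6⟩

lemma MB_mono (b : ℕ) (S : Set ℕ) (β : ℝ) : Monotone (MB b S β) := by
  classical
  intro m n hmn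
  unfold MB
  refine Finset.card_le_card ?_
  intro p hp
  rw [mem_filter, mem_range] at hp ⊢
  exact ⟨by omega, hp.2⟩

lemma Gd_cut {b k1 : ℕ} {K : ℝ} (hK : 0 < K) {S : Set ℕ} {β : ℝ} {J i : ℕ}
    (h : Gd b k1 K S β i) : Gd b k1 K (cut S J) β i := by
  rcases Nat.lt_or_ge i J with h1 | h1
  · unfold Gd NBl dl at h ⊢
    rw [TS_cut_lt h1]
    exact h
  · unfold Gd NBl
    have h2 := dl_nonneg hK.le (cut S J) i
    rw [TS_cut_ge h1]
    constructor
    · have h3 : mT b (2 ^ (i + 1 - k1)) ∅ (NB b β (2 ^ (i + 1 - k1))) = 0 := by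
        unfold mT
        exact Finset.sum_empty
      have h4 : VT ∅ = 0 := by
        unfold VT
        exact Finset.sum_empty
      rw [h3, h4, mul_zero, sub_zero, abs_zero]
      exact h2
    · have h5 : hits ∅ b (2 ^ (i + 1)) (NB b β (2 ^ (i + 1))) = ∅ := by
        unfold hits
        exact Finset.filter_empty _
      rw [h5, Finset.card_empty]
      push_cast
      exact Real.sqrt_nonneg _

lemma VS_tele (S : Set ℕ) (I M : ℕ) :
    ∑ n ∈ range M, VT (TS S (I + n)) = VS S (2 ^ (I + M)) - VS S (2 ^ I) := by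
  induction M with
  | zero => simp
  | succ M ih =>
    rw [Finset.sum_range_succ, ih, ← add_assoc, VS_step]
    ring

lemma MB_tele {b : ℕ} (hb : 2 ≤ b) (S : Set ℕ) {β : ℝ} (hβ : 0 < β) (I M : ℕ) :
    ∑ n ∈ range M, NBl b S β (I + n) + MB b S β (2 ^ I) = MB b S β (2 ^ (I + M)) := by
  induction M with
  | zero => simp
  | succ M ih =>
    rw [Finset.sum_range_succ, ← add_assoc I M 1, MB_step hb S hβ, ← ih]
    ring

/-- sum over the residue classes -/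
lemma sum_res {G : Type} [AddCommMonoid G] (f : ℕ → G) (k1 I : ℕ) (J : ℕ) :
    ∑ ρ ∈ range k1, ∑ l ∈ range J, f (I + ρ + l * k1) = ∑ n ∈ range (J * k1), f (I + n) := by
  rw [Finset.sum_comm]
  induction J with
  | zero => simp
  | succ J ih =>
    rw [Finset.sum_range_succ, ih, Nat.succ_mul, Finset.sum_range_add]
    congr 1
    refine Finset.sum_congr rfl fun ρ _ => ?_
    congr 1
    ring

open Classical in
/-- one window, one residue class -/
theorem step1 {b : ℕ} (hb : 2 ≤ b) {s1 C : ℝ} {P k1 : ℕ} {K : ℝ} (hk1 : 7 ≤ k1) (hK : 0 < K)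
    (hBL : ∀ x ≥ P, ∀ T : Finset ℕ, (∀ p ∈ T, p.Prime ∧ x < p ∧ p ≤ 2 * x) → ∀ z : ℕ, 64 * z ≤ x →
      ∀ t : ℕ, 2 * x ≤ t → ∀ j : ℕ, 1 ≤ j → j ≤ b ^ (2 * z) → ∀ δ : ℝ, 0 ≤ δ →
      |mT b z T j - kap b * VT T| ≤ δ → ∀ s : ℝ, |s| ≤ s1 →
      ∑ n ∈ (cell b z t j).filter (fun n => ((hits T b t n).card : ℝ) ≤ √(Real.log x)),
        (1 + s) ^ (hits T b t n).card ≤
        Real.exp (s * (kap b * VT T) + |s| * δ + C * s ^ 2 * VT T) * (b : ℝ) ^ (t - z))
    {C0 : ℝ} (hC0 : 0 < C0)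
    (hDP : ∀ (S : Set ℕ) (a i : ℕ), 1 ≤ a →
      DP K S k1 a i ≤ 2 + K * C0 * Real.log (VS S (2 ^ (a + i * k1)) + 3))
    {A : ℝ} (hPar : Par (kap b) C (2 + K * C0) s1 A)
    (S : Set ℕ) {m0 a : ℕ} (ha1 : P ≤ 2 ^ a) (ha2 : k1 ≤ a) (ha3 : m0 ≤ 2 ^ (a + 1 - k1)) (J : ℕ) :
    volume {β : ℝ | ((b : ℝ) ^ m0)⁻¹ < β ∧ β ≤ (b : ℝ) ^ m0 ∧
      (∀ l < J, Gd b k1 K (cut S J) β (a + l * k1)) ∧
      A * (√(VP (cut S J) k1 a J * Real.log (VS S (2 ^ J) + 3)) + Real.log (VS S (2 ^ J) + 3)) ≤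
        |(NP b (cut S J) β k1 a J : ℝ) - kap b * VP (cut S J) k1 a J|} ≤
      ENNReal.ofReal (2 * (b : ℝ) ^ m0 * Real.exp (-(5 * Real.log (VS S (2 ^ J) + 3)))) := by
  set L := Real.log (VS S (2 ^ J) + 3) with hL
  set Vm := VP (cut S J) k1 a J with hVm
  set Δ := DP K (cut S J) k1 a J with hΔ
  have hV0 := VS_nonneg S (2 ^ J)
  have hL1 : 1 ≤ L := by
    rw [hL, Real.le_log_iff_exp_le (by linarith)]
    have := Real.exp_one_lt_d9
    linarith
  have hL0 : 0 < L := by linarith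
  have hVm0 : 0 ≤ Vm := Finset.sum_nonneg fun l _ => VT_nonneg _
  have hΔL : Δ ≤ (2 + K * C0) * L := by
    have h1 := hDP (cut S J) a J (by omega)
    rw [VS_cut] at h1
    have h2 : Real.log (VS S (min (2 ^ (a + J * k1)) (2 ^ J)) + 3) ≤ L := by
      rw [hL]
      refine Real.log_le_log (by have := VS_nonneg S (min (2 ^ (a + J * k1)) (2 ^ J)); linarith) ?_
      have := VS_mono S (Nat.min_le_right (2 ^ (a + J * k1)) (2 ^ J))
      linarith
    have h3 : 0 ≤ K * C0 := by positivity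
    have h4 := mul_le_mul_of_nonneg_left h2 h3
    nlinarith
  obtain ⟨s, hs0, hs1', hsV, hsD⟩ := choose_s hPar.hs1 hPar.hs12 hVm0 hL0
  have hsΔ : s * Δ ≤ (2 + K * C0) * L := by
    have h1 := mul_le_mul_of_nonneg_left hΔL hs0.le
    have h2 : s ≤ 1 := by
      have := hPar.hs12
      linarith
    have h3 : 0 ≤ (2 + K * C0) * L := by positivity
    nlinarith
  have hlam : (0 : ℝ) < Real.exp (5 * L) := Real.exp_pos _
  have c1 := core hb hk1 hK hPar.hs12 hBL (cut S J) ha1 ha2 ha3 (s := s)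
    (by rw [abs_of_pos hs0]; exact hs1') hlam
  have c2 := core hb hk1 hK hPar.hs12 hBL (cut S J) ha1 ha2 ha3 (s := -s)
    (by rw [abs_neg, abs_of_pos hs0]; exact hs1') hlam
  refine (measure_mono ?_).trans ((measure_union_le _ _).trans ((add_le_add c1 c2).trans ?_))
  · rintro β ⟨h1, h2, h3, h4⟩
    rcases le_abs.1 h4 with h5 | h5
    · left
      refine ⟨h1, h2, J, h3, ?_⟩
      exact dev_up hPar hs0 hs1' hL0 hVm0 le_rfl hsV hsD hsΔ (by linarith)
    · right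
      refine ⟨h1, h2, J, h3, ?_⟩
      exact dev_low hPar hs0 hs1' hL0 hVm0 le_rfl hsV hsD hsΔ (by linarith)
  · rw [← ENNReal.ofReal_add (by positivity) (by positivity)]
    refine ENNReal.ofReal_le_ofReal (le_of_eq ?_)
    rw [Real.exp_neg]
    ring

end Pool.Agent.N441.OW
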