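import Mathlib
import Pool.Agent.N441.OW.W1

set_option autoImplicit false

/-!
# Optimal windows: the grid of windows
-/

namespace Pool.Agent.N441.OW

open Finset Filter Topology MeasureTheory
open Pool.Agent.N176.GP (NB MB)
open Pool.Agent.H305R2 (roughPart)
open Pool.Agent.N176.OW

lemma exp_bound {y k : ℝ} (hk : 1 ≤ k) (hy : k ≤ y) :
    Real.exp (-(5 * Real.log y)) ≤ 1 / k ^ 3 := by
  have hy0 : 0 < y := by linarith
  have h1 : Real.exp (5 * Real.log y) = y ^ 5 := by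
    have h2 : (5 : ℝ) * Real.log y = ((5 : ℕ) : ℝ) * Real.log y := by norm_num
    rw [h2, Real.exp_nat_mul, Real.exp_log hy0]
  rw [Real.exp_neg, h1, ← one_div]
  refine one_div_le_one_div_of_le (by positivity) ?_
  calc k ^ 3 ≤ y ^ 3 := by gcongr
    _ ≤ y ^ 5 := pow_le_pow_right₀ (by linarith) (by norm_num)

open Classical in
theorem grid {b : ℕ} (hb : 2 ≤ b) {s1 C : ℝ} {P k1 : ℕ} {K : ℝ} (hk1 : 7 ≤ k1) (hK : 0 < K)
    (hBL : ∀ x ≥ P, ∀ T : Finset ℕ, (∀ p ∈ T, p.Prime ∧ x < p ∧ p ≤ 2 * x) → ∀ z : ℕ, 64 * z ≤ x →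
      ∀ t : ℕ, 2 * x ≤ t → ∀ j : ℕ, 1 ≤ j → j ≤ b ^ (2 * z) → ∀ δ : ℝ, 0 ≤ δ →
      |mT b z T j - kap b * VT T| ≤ δ → ∀ s : ℝ, |s| ≤ s1 →
      ∑ n ∈ (cell b z t j).filter (fun n => ((hits T b t n).card : ℝ) ≤ √(Real.log x)),
        (1 + s) ^ (hits T b t n).card ≤
        Real.exp (s * (kap b * VT T) + |s| * δ + C * s ^ 2 * VT T) * (b : ℝ) ^ (t - z))
    {C0 : ℝ} (hC0 : 0 < C0)
    (hDP : ∀ (S : Set ℕ) (a i : ℕ), 1 ≤ a →
      DP K S k1 a i ≤ 2 + K * C0 * Real.log (VS S (2 ^ (a + i * k1)) + 3))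
    {A : ℝ} (hPar : Par (kap b) C (2 + K * C0) s1 A) (hA : 0 < A)
    (S : Set ℕ) (hGd : ∀ᵐ β : ℝ, 0 < β → ∀ᶠ i : ℕ in atTop, Gd b k1 K S β i)
    (g : ℕ → ℕ) (hgm : Monotone g) (hg1 : ∀ k : ℕ, (k : ℝ) ≤ VS S (2 ^ g k))
    (hg : Tendsto g atTop atTop) :
    ∀ᵐ β : ℝ, 0 < β → ∃ k0 : ℕ, ∀ k ≥ k0, ∀ k' ≥ k,
      |((MB b S β (2 ^ g k') : ℝ) - MB b S β (2 ^ g k)) -
        kap b * (VS S (2 ^ g k') - VS S (2 ^ g k))| ≤
        k1 * (A * (√((VS S (2 ^ g k') - VS S (2 ^ g k)) * Real.log (VS S (2 ^ g k') + 3)) +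
          Real.log (VS S (2 ^ g k') + 3))) := by
  have hb0 : (0 : ℝ) < b := by positivity
  have hae : ∀ m0 : ℕ, ∀ᵐ β : ℝ, ((b : ℝ) ^ m0)⁻¹ < β → β ≤ (b : ℝ) ^ m0 →
      ∃ k0 a0 : ℕ, ∀ k' ≥ k0, ∀ k ≤ k', a0 ≤ g k →
        (∀ i ≥ g k, Gd b k1 K S β i) → ∀ ρ < k1,
        |(NP b (cut S (g k')) β k1 (g k + ρ) (g k') : ℝ) -
          kap b * VP (cut S (g k')) k1 (g k + ρ) (g k')| <
        A * (√(VP (cut S (g k')) k1 (g k + ρ) (g k') * Real.log (VS S (2 ^ g k') + 3)) +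
          Real.log (VS S (2 ^ g k') + 3)) := by
    intro m0
    have hpow : Tendsto (fun i : ℕ => 2 ^ (i + 1 - k1)) atTop atTop := by
      refine (tendsto_pow_atTop_atTop_of_one_lt (by norm_num)).comp ?_
      exact tendsto_atTop_mono (fun i => show i - k1 ≤ i + 1 - k1 by omega)
        (tendsto_sub_atTop_nat k1)
    have hpow2 : Tendsto (fun i : ℕ => 2 ^ i) atTop atTop :=
      tendsto_pow_atTop_atTop_of_one_lt (by norm_num)
    obtain ⟨a0, ha0⟩ := ((hpow.eventually_ge_atTop m0).and ((hpow2.eventually_ge_atTop P).and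
      (eventually_ge_atTop k1))).exists_forall_of_atTop
    set q : ℕ → ℕ → ℕ → ℝ → Prop := fun k' k ρ β => a0 ≤ g k ∧ ((b : ℝ) ^ m0)⁻¹ < β ∧
      β ≤ (b : ℝ) ^ m0 ∧
      (∀ l < g k', Gd b k1 K (cut S (g k')) β (g k + ρ + l * k1)) ∧
      A * (√(VP (cut S (g k')) k1 (g k + ρ) (g k') * Real.log (VS S (2 ^ g k') + 3)) +
          Real.log (VS S (2 ^ g k') + 3)) ≤
        |(NP b (cut S (g k')) β k1 (g k + ρ) (g k') : ℝ) -
          kap b * VP (cut S (g k')) k1 (g k + ρ) (g k')| with hq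
    set p : ℕ → ℝ → Prop := fun k' β => ∃ x ∈ range (k' + 1) ×ˢ range k1, q k' x.1 x.2 β with hp
    set C' : ℝ := k1 * (2 * (b : ℝ) ^ m0) with hC'
    have hq1 : ∀ k' k ρ, volume {β : ℝ | q k' k ρ β} ≤
        ENNReal.ofReal (2 * (b : ℝ) ^ m0 * (1 / ((k' + 1 : ℕ) : ℝ) ^ 3)) := by
      intro k' k ρ
      by_cases hk : a0 ≤ g k
      · obtain ⟨h1, h2, h3⟩ := ha0 (g k + ρ) (by omega)
        refine (measure_mono ?_).trans ((step1 hb hk1 hK hBL hC0 hDP hPar S h2 h3 h1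
          (g k')).trans (ENNReal.ofReal_le_ofReal ?_))
        · rintro β ⟨_, h4⟩
          exact h4
        · refine mul_le_mul_of_nonneg_left ?_ (by positivity)
          refine exp_bound ?_ ?_
          · push_cast
            have : (0 : ℝ) ≤ k' := Nat.cast_nonneg _
            linarith
          · push_cast
            have := hg1 k'
            linarith
      · have : {β : ℝ | q k' k ρ β} = ∅ := by
          rw [Set.eq_empty_iff_forall_notMem]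
          rintro β ⟨h1, _⟩
          exact hk h1
        rw [this, measure_empty]
        exact zero_le
    have hmeas : ∀ k' : ℕ, volume {β : ℝ | p k' β} ≤
        ENNReal.ofReal (C' * (1 / ((k' + 1 : ℕ) : ℝ) ^ 2)) := by
      intro k'
      have hsub : {β : ℝ | p k' β} ⊆
          ⋃ x ∈ range (k' + 1) ×ˢ range k1, {β : ℝ | q k' x.1 x.2 β} := by
        rintro β ⟨x, hx, h1⟩
        rw [Set.mem_iUnion₂]
        exact ⟨x, hx, h1⟩
      refine (measure_mono hsub).trans ((measure_biUnion_finset_le _ _).trans ?_)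
      refine (Finset.sum_le_card_nsmul _ _ _ fun x _ => hq1 k' x.1 x.2).trans ?_
      rw [card_product, card_range, card_range, nsmul_eq_mul, ← ENNReal.ofReal_natCast,
        ← ENNReal.ofReal_mul (Nat.cast_nonneg _)]
      refine ENNReal.ofReal_le_ofReal (le_of_eq ?_)
      have h1 : ((k' + 1 : ℕ) : ℝ) ≠ 0 := by positivity
      rw [hC', Nat.cast_mul]
      field_simp
    have hsum : ∑' k' : ℕ, volume {β : ℝ | p k' β} ≠ ⊤ := by
      refine ne_top_of_le_ne_top ?_ (ENNReal.tsum_le_tsum hmeas)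
      have hs0 : Summable fun i : ℕ => (1 / ((i : ℕ) : ℝ) ^ 2) :=
        Real.summable_one_div_nat_pow.2 (show 1 < 2 by norm_num)
      have hs : Summable fun i : ℕ => C' * (1 / ((i + 1 : ℕ) : ℝ) ^ 2) :=
        ((summable_nat_add_iff 1).2 hs0).mul_left _
      rw [← ENNReal.ofReal_tsum_of_nonneg (fun i => by positivity) hs]
      exact ENNReal.ofReal_ne_top
    have hfr := measure_setOfPred_frequently_eq_zero hsum
    have hae1 : ∀ᵐ β : ℝ, ¬ ∃ᶠ i in atTop, p i β := by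
      rw [ae_iff]
      simpa only [not_not] using hfr
    filter_upwards [hae1] with β hβ h1 h2
    rw [not_frequently] at hβ
    obtain ⟨k0, hk0⟩ := hβ.exists_forall_of_atTop
    refine ⟨k0, a0, fun k' hk' k hk ha hG ρ hρ => ?_⟩
    by_contra hcon
    refine hk0 k' hk' ⟨(k, ρ), ?_, ha, h1, h2, ?_, not_lt.1 hcon⟩
    · rw [mem_product, mem_range, mem_range]
      exact ⟨by change k < k' + 1; omega, hρ⟩
    · intro l _
      refine Gd_cut hK (hG _ ?_)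
      change g k + ρ + l * k1 ≥ g k
      omega
  have hae' : ∀ᵐ β : ℝ, ∀ m0 : ℕ, ((b : ℝ) ^ m0)⁻¹ < β → β ≤ (b : ℝ) ^ m0 →
      ∃ k0 a0 : ℕ, ∀ k' ≥ k0, ∀ k ≤ k', a0 ≤ g k →
        (∀ i ≥ g k, Gd b k1 K S β i) → ∀ ρ < k1,
        |(NP b (cut S (g k')) β k1 (g k + ρ) (g k') : ℝ) -
          kap b * VP (cut S (g k')) k1 (g k + ρ) (g k')| <
        A * (√(VP (cut S (g k')) k1 (g k + ρ) (g k') * Real.log (VS S (2 ^ g k') + 3)) +
          Real.log (VS S (2 ^ g k') + 3)) := ae_all_iff.2 hae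
  filter_upwards [hae', hGd] with β hβ hβG hβ0
  obtain ⟨m0, hm1, hm2⟩ : ∃ m0 : ℕ, ((b : ℝ) ^ m0)⁻¹ < β ∧ β ≤ (b : ℝ) ^ m0 := by
    have hb1 : (1 : ℝ) < b := by exact_mod_cast (by omega : 1 < b)
    have ht : Tendsto (fun m : ℕ => (b : ℝ) ^ m) atTop atTop := tendsto_pow_atTop_atTop_of_one_lt hb1
    obtain ⟨m0, h1, h2⟩ := ((ht.eventually_ge_atTop β).and (ht.eventually_gt_atTop β⁻¹)).exists
    exact ⟨m0, by rw [inv_lt_comm₀ (by positivity) hβ0]; exact h2, h1⟩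
  obtain ⟨k0, a0, hk0⟩ := hβ m0 hm1 hm2
  obtain ⟨i1, hi1⟩ := (hβG hβ0).exists_forall_of_atTop
  obtain ⟨k2, hk2⟩ := (hg.eventually_ge_atTop (max a0 i1)).exists_forall_of_atTop
  refine ⟨max k0 k2, fun k hk k' hk' => ?_⟩
  have hk0' : k0 ≤ k := (le_max_left _ _).trans hk
  have hk2' := hk2 k ((le_max_right _ _).trans hk)
  have hgk1 : a0 ≤ g k := (le_max_left _ _).trans hk2'
  have hgk2 : i1 ≤ g k := (le_max_right _ _).trans hk2'
  have key := hk0 k' (hk0'.trans hk') k hk' hgk1 (fun i hi => hi1 i (hgk2.trans hi))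
  set I := g k with hI
  set J := g k' with hJ
  have hIJ : I ≤ J := hgm hk'
  set L := Real.log (VS S (2 ^ J) + 3) with hL
  have hL0 : 0 ≤ L := Real.log_nonneg (by have := VS_nonneg S (2 ^ J); linarith)
  have hIJ' : 2 ^ I ≤ 2 ^ J := Nat.pow_le_pow_right (by norm_num) hIJ
  have hJk : J ≤ J * k1 := Nat.le_mul_of_pos_right _ (by omega)
  have hJ' : 2 ^ J ≤ 2 ^ (I + J * k1) := Nat.pow_le_pow_right (by norm_num) (by omega)
  have hN : (∑ ρ ∈ range k1, (NP b (cut S J) β k1 (I + ρ) J : ℝ)) =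
      (MB b S β (2 ^ J) : ℝ) - MB b S β (2 ^ I) := by
    have h1 := sum_res (NBl b (cut S J) β) k1 I J
    have h2 := MB_tele hb (cut S J) hβ0 I (J * k1)
    rw [← h1, MB_cut, MB_cut, Nat.min_eq_left hIJ', Nat.min_eq_right hJ'] at h2
    rw [eq_sub_iff_add_eq]
    rw [← h2]
    simp only [NP, Nat.cast_sum, Nat.cast_add]
  have hV : (∑ ρ ∈ range k1, VP (cut S J) k1 (I + ρ) J) = VS S (2 ^ J) - VS S (2 ^ I) := by
    have h1 := sum_res (fun i => VT (TS (cut S J) i)) k1 I J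
    have h2 := VS_tele (cut S J) I (J * k1)
    rw [← h1, VS_cut, VS_cut, Nat.min_eq_left hIJ', Nat.min_eq_right hJ'] at h2
    exact h2
  have hVP0 : ∀ ρ, 0 ≤ VP (cut S J) k1 (I + ρ) J := fun ρ =>
    Finset.sum_nonneg fun l _ => VT_nonneg _
  have e1 : ((MB b S β (2 ^ J) : ℝ) - MB b S β (2 ^ I)) - kap b * (VS S (2 ^ J) - VS S (2 ^ I)) =
      ∑ ρ ∈ range k1, ((NP b (cut S J) β k1 (I + ρ) J : ℝ) -
        kap b * VP (cut S J) k1 (I + ρ) J) := by
    rw [Finset.sum_sub_distrib, ← Finset.mul_sum, hN, hV]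
  rw [e1]
  refine (Finset.abs_sum_le_sum_abs _ _).trans ?_
  have h1 : ∀ ρ ∈ range k1, |(NP b (cut S J) β k1 (I + ρ) J : ℝ) -
      kap b * VP (cut S J) k1 (I + ρ) J| ≤
      A * (√((VS S (2 ^ J) - VS S (2 ^ I)) * L) + L) := by
    intro ρ hρ
    refine (key ρ (mem_range.1 hρ)).le.trans ?_
    refine mul_le_mul_of_nonneg_left ?_ hA.le
    refine add_le_add ?_ le_rfl
    refine Real.sqrt_le_sqrt (mul_le_mul_of_nonneg_right ?_ hL0)
    rw [← hV]
    exact Finset.single_le_sum (f := fun ρ => VP (cut S J) k1 (I + ρ) J)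
      (fun ρ _ => hVP0 ρ) hρ
  refine (Finset.sum_le_card_nsmul _ _ _ h1).trans ?_
  rw [card_range, nsmul_eq_mul]

end Pool.Agent.N441.OW
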