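import Mathlib
import Pool.Agent.N176.OW.Stm3
import Pool.Agent.N441.OW.W2

set_option autoImplicit false

/-!
# Optimal windows: all windows
-/

namespace Pool.Agent.N441.OW

open Finset Filter Topology MeasureTheory
open Pool.Agent.N176.GP (NB MB)
open Pool.Agent.H305R2 (roughPart)
open Pool.Agent.N176.OW

lemma VS_one (S : Set ℕ) : VS S (2 ^ 0) = 0 := by
  classical
  unfold VS
  refine Finset.sum_eq_zero fun p hp => ?_
  rw [mem_filter, mem_range] at hp
  have := hp.2.1.two_le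
  simp at hp
  omega

lemma sqrt_bound {x c y : ℝ} (hx : 0 ≤ x) (hc : 1 ≤ c) (hy : 1 ≤ y) :
    √((x + c) * (2 * y)) ≤ 2 * √(x * y) + 2 * (c * y) := by
  have h1 : 0 ≤ √(x * y) := Real.sqrt_nonneg _
  have h2 : √(x * y) ^ 2 = x * y := Real.sq_sqrt (by positivity)
  have h3 : 1 ≤ c * y := by nlinarith
  rw [Real.sqrt_le_left (by positivity)]
  have h4 : 0 ≤ √(x * y) * (c * y) := by positivity
  have h5 : 0 ≤ x * y := by positivity
  nlinarith [mul_le_mul_of_nonneg_left h3 (by positivity : (0 : ℝ) ≤ c * y)]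

/-- **OW/WIN** -/
theorem win (hBL : S_BL) (hEX : S_EX) (hGC : S_GC) : S_WIN := by
  classical
  intro b hb
  obtain ⟨s1, C, hs1, hs12, hC, P, hBL⟩ := hBL b hb
  obtain ⟨s2, C2, c2, hs2, hs22, hC2, hc2, P2, hEX⟩ := hEX b hb
  obtain ⟨k1, hk1, K, hK, hGC⟩ := hGC b hb
  obtain ⟨C0, hC0, hVT⟩ := VT_bound
  obtain ⟨Cd, hCd, hDP⟩ := DP_bound
  have hb1 : (1 : ℝ) < b := by exact_mod_cast (by omega : 1 < b)
  have hκ : 0 < kap b := by
    unfold kap
    exact div_pos (Real.exp_pos _) (Real.log_pos hb1)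
  set A : ℝ := (10 + 2 * (2 + K * Cd) + 2 * C + 4 * kap b) / s1 with hAdef
  have hA : 0 < A := by positivity
  have hPar : Par (kap b) C (2 + K * Cd) s1 A := ⟨hκ, hC, by positivity, hs1, hs12, hAdef⟩
  set c : ℝ := 2 * C0 + 3 with hcdef
  have hc1 : 1 ≤ c := by rw [hcdef]; linarith
  have hk10 : (0 : ℝ) < k1 := by exact_mod_cast (by omega : 0 < k1)
  refine ⟨kap b * c + 2 * (k1 * A) * (c + 1), by positivity, fun S hS => ?_⟩
  have hGd := good_ae hb hk1 hc2 (P := P2) (K := K)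
    (fun x hx T hT z hz t ht j h1 h2 => (hEX x hx T hT z hz t ht j h1 h2).2) hGC S
  -- the grid
  have hpow2 : Tendsto (fun i : ℕ => 2 ^ i) atTop atTop :=
    tendsto_pow_atTop_atTop_of_one_lt (by norm_num)
  have hS2 : Tendsto (fun i : ℕ => VS S (2 ^ i)) atTop atTop := hS.comp hpow2
  have hex : ∀ k : ℕ, ∃ i : ℕ, (k : ℝ) ≤ VS S (2 ^ i) := fun k =>
    (hS2.eventually_ge_atTop (k : ℝ)).exists
  set g : ℕ → ℕ := fun k => Nat.find (hex k) with hg
  have hg1 : ∀ k : ℕ, (k : ℝ) ≤ VS S (2 ^ g k) := fun k => Nat.find_spec (hex k)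
  have hgm : Monotone g := by
    intro k k' hkk
    refine Nat.find_min' (hex k) ?_
    have h1 := hg1 k'
    have h2 : (k : ℝ) ≤ k' := by exact_mod_cast hkk
    exact h2.trans h1
  have hg2 : ∀ k : ℕ, VS S (2 ^ g k) ≤ k + C0 := by
    intro k
    rcases Nat.eq_zero_or_pos (g k) with h0 | h0
    · rw [h0, VS_one]
      positivity
    · obtain ⟨i, hi⟩ : ∃ i, g k = i + 1 := ⟨g k - 1, by omega⟩
      have h1 : ¬ (k : ℝ) ≤ VS S (2 ^ i) := Nat.find_min (hex k) (by
        change i < g k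
        omega)
      rw [hi, VS_step]
      have := hVT S i
      linarith [not_le.1 h1]
  have hgt : Tendsto g atTop atTop := by
    refine tendsto_atTop_atTop.2 fun i => ?_
    obtain ⟨k, hk⟩ := exists_nat_gt (VS S (2 ^ i))
    refine ⟨k, fun k' hk' => ?_⟩
    by_contra hcon
    have h1 := hg1 k'
    have h2 : VS S (2 ^ g k') ≤ VS S (2 ^ i) :=
      VS_mono S (Nat.pow_le_pow_right (by norm_num) (by omega))
    have h3 : (k : ℝ) ≤ k' := by exact_mod_cast hk'
    linarith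
  filter_upwards [grid hb hk1 hK hBL hCd
    (fun S a i ha => hDP K S k1 a i hK (by omega) ha) hPar hA S hGd g hgm hg1 hgt] with β hβ hβ0
  obtain ⟨k0, hk0⟩ := hβ hβ0
  filter_upwards [hS.eventually_ge_atTop ((k0 : ℝ) + C0 + 5)] with n hn n' hn'
  have hVV : VS S n ≤ VS S n' := VS_mono S hn'
  set V := VS S n with hV
  set V' := VS S n' with hV'
  have hk00 : (0 : ℝ) ≤ k0 := Nat.cast_nonneg _
  have hy1 : 1 ≤ Real.log V' := by
    rw [Real.le_log_iff_exp_le (by linarith)]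
    have := Real.exp_one_lt_d9
    linarith
  set y := Real.log V' with hy
  -- lower and upper grid points
  have hlow : ∀ m : ℕ, (k0 : ℝ) + C0 + 5 ≤ VS S m → ∃ k : ℕ, k0 ≤ k ∧ (k : ℝ) ≤ VS S m - C0 - 1 ∧
      VS S m - C0 - 2 < k ∧ 2 ^ g k ≤ m := by
    intro m hm
    have h1 : (0 : ℝ) ≤ VS S m - C0 - 1 := by linarith
    refine ⟨⌊VS S m - C0 - 1⌋₊, Nat.le_floor (by linarith), Nat.floor_le h1, ?_, ?_⟩
    · have := Nat.lt_floor_add_one (VS S m - C0 - 1)
      linarith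
    · by_contra hcon
      have h2 := hg2 ⌊VS S m - C0 - 1⌋₊
      have h3 := Nat.floor_le h1
      have h4 : VS S m ≤ VS S (2 ^ g ⌊VS S m - C0 - 1⌋₊) := VS_mono S (by omega)
      linarith
  have hhigh : ∀ m : ℕ, (k0 : ℝ) + C0 + 5 ≤ VS S m → ∃ k : ℕ, k0 ≤ k ∧ (k : ℝ) ≤ VS S m + 1 ∧
      VS S m < k ∧ m ≤ 2 ^ g k := by
    intro m hm
    have h1 : (0 : ℝ) ≤ VS S m := VS_nonneg S m
    refine ⟨⌊VS S m⌋₊ + 1, ?_, ?_, ?_, ?_⟩
    · have := Nat.le_floor (a := VS S m) (n := k0) (by linarith)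
      omega
    · push_cast
      have := Nat.floor_le h1
      linarith
    · push_cast
      exact Nat.lt_floor_add_one _
    · by_contra hcon
      have h2 := hg1 (⌊VS S m⌋₊ + 1)
      have h3 := Nat.lt_floor_add_one (VS S m)
      have h4 : VS S (2 ^ g (⌊VS S m⌋₊ + 1)) ≤ VS S m := VS_mono S (by omega)
      push_cast at h2
      linarith
  obtain ⟨kl, hkl0, hkl1, hkl2, hkl3⟩ := hlow n hn
  obtain ⟨kh, hkh0, hkh1, hkh2, hkh3⟩ := hhigh n hn
  obtain ⟨ql, hql0, hql1, hql2, hql3⟩ := hlow n' (hn.trans hVV)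
  obtain ⟨qh, hqh0, hqh1, hqh2, hqh3⟩ := hhigh n' (hn.trans hVV)
  rw [← hV] at hkl1 hkl2 hkh1 hkh2
  rw [← hV'] at hql1 hql2 hqh1 hqh2
  -- the error terms
  have herr : ∀ k k' : ℕ, k ≤ k' → VS S (2 ^ g k') ≤ V' + C0 + 2 →
      VS S (2 ^ g k') - VS S (2 ^ g k) ≤ (V' - V) + c →
      k1 * (A * (√((VS S (2 ^ g k') - VS S (2 ^ g k)) * Real.log (VS S (2 ^ g k') + 3)) +
          Real.log (VS S (2 ^ g k') + 3))) ≤
        2 * (k1 * A) * (√((V' - V) * y) + (c + 1) * y) := by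
    intro k k' hkk h1 h2
    have h3 : Real.log (VS S (2 ^ g k') + 3) ≤ 2 * y := by
      have h4 : Real.log (V' ^ 2) = 2 * y := by
        rw [Real.log_pow]
        push_cast
        rfl
      rw [← h4]
      refine Real.log_le_log (by have := VS_nonneg S (2 ^ g k'); linarith) ?_
      nlinarith
    have h3' : 0 ≤ Real.log (VS S (2 ^ g k') + 3) := Real.log_nonneg (by
      have := VS_nonneg S (2 ^ g k'); linarith)
    have h5 : 0 ≤ VS S (2 ^ g k') - VS S (2 ^ g k) := sub_nonneg.2 (VS_mono S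
      (Nat.pow_le_pow_right (by norm_num) (hgm hkk)))
    have h6 : √((VS S (2 ^ g k') - VS S (2 ^ g k)) * Real.log (VS S (2 ^ g k') + 3)) ≤
        2 * √((V' - V) * y) + 2 * (c * y) := by
      refine (Real.sqrt_le_sqrt ?_).trans (sqrt_bound (sub_nonneg.2 hVV) hc1 hy1)
      exact mul_le_mul h2 h3 h3' (by linarith)
    have h7 : A * (√((VS S (2 ^ g k') - VS S (2 ^ g k)) * Real.log (VS S (2 ^ g k') + 3)) +
          Real.log (VS S (2 ^ g k') + 3)) ≤ A * (2 * √((V' - V) * y) + 2 * (c * y) + 2 * y) :=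
      mul_le_mul_of_nonneg_left (by linarith) hA.le
    refine (mul_le_mul_of_nonneg_left h7 hk10.le).trans (le_of_eq ?_)
    ring
  have hsq : 0 ≤ √((V' - V) * y) := Real.sqrt_nonneg _
  have hMm : ∀ {m m' : ℕ}, m ≤ m' → (MB b S β m : ℝ) ≤ MB b S β m' := fun {m m'} h => by
    exact_mod_cast MB_mono b S β h
  have hfin : kap b * c + 2 * (k1 * A) * (√((V' - V) * y) + (c + 1) * y) ≤
      (kap b * c + 2 * (k1 * A) * (c + 1)) * (√((V' - V) * y) + y) := by
    have h1 : 0 ≤ kap b * c := by positivity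
    have h2 : 0 ≤ 2 * (k1 * A) := by positivity
    have h3 : kap b * c ≤ kap b * c * (√((V' - V) * y) + y) := by nlinarith
    have h4 : √((V' - V) * y) + (c + 1) * y ≤ (c + 1) * (√((V' - V) * y) + y) := by nlinarith
    have h5 := mul_le_mul_of_nonneg_left h4 h2
    nlinarith
  refine le_trans ?_ hfin
  rw [abs_le]
  constructor
  · -- lower bound
    rcases Nat.lt_or_ge ql kh with hlt | hge
    · have h1 : (ql : ℝ) < kh := by exact_mod_cast hlt
      have h2 : V' - V ≤ c := by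
        rw [hcdef]
        linarith
      have h3 := hMm hn'
      have h4 : kap b * (V' - V) ≤ kap b * c := mul_le_mul_of_nonneg_left h2 hκ.le
      have h5 : 0 ≤ 2 * (k1 * A) * (√((V' - V) * y) + (c + 1) * y) := by positivity
      linarith
    · have hkq : k0 ≤ kh := hkh0
      have h1 := (abs_le.1 (hk0 kh hkq ql hge)).1
      have h2 : VS S (2 ^ g ql) ≤ V' := VS_mono S hql3
      have h3 : V ≤ VS S (2 ^ g kh) := VS_mono S hkh3
      have h4 := herr kh ql hge (by linarith) (by linarith)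
      have h5 := hMm hql3
      have h6 := hMm hkh3
      have h7 := hg1 ql
      have h8 := hg2 kh
      have h9 : (V' - V) - c ≤ VS S (2 ^ g ql) - VS S (2 ^ g kh) := by
        rw [hcdef]
        linarith
      have h10 := mul_le_mul_of_nonneg_left h9 hκ.le
      rw [mul_sub] at h10
      linarith
  · -- upper bound
    have hkq : kl ≤ qh := by
      have : (kl : ℝ) ≤ qh := by linarith
      exact_mod_cast this
    have h1 := (abs_le.1 (hk0 kl hkl0 qh hkq)).2
    have h2 := hg2 qh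
    have h3 := hg1 kl
    have h4 := herr kl qh hkq (by linarith) (by rw [hcdef]; linarith)
    have h5 := hMm hqh3
    have h6 := hMm hkl3
    have h9 : VS S (2 ^ g qh) - VS S (2 ^ g kl) ≤ (V' - V) + c := by
      rw [hcdef]
      linarith
    have h10 := mul_le_mul_of_nonneg_left h9 hκ.le
    rw [mul_add] at h10
    linarith

end Pool.Agent.N441.OW
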